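import Pool.Agent.Q230.HD.St

/-!
# Project HD of helper230, job HD-B: the structure theorem
-/

set_option autoImplicit false

namespace Pool.Agent.Q166.HDP

open Pool.Agent.Q230.HD Matrix

/-- two equivalence relations that cover all pairs -/
theorem two_equiv {ι : Type} (r s : ι → ι → Prop) (rs : ∀ x y, r x y → r y x)
    (rt : ∀ x y z, r x y → r y z → r x z) (ss : ∀ x y, s x y → s y x)
    (st : ∀ x y z, s x y → s y z → s x z) (h : ∀ x y, r x y ∨ s x y) :
    (∀ x y, r x y) ∨ (∀ x y, s x y) := by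
  by_contra hcon
  push Not at hcon
  obtain ⟨⟨x, y, hxy⟩, ⟨z, w, hzw⟩⟩ := hcon
  have hsxy : s x y := (h x y).resolve_left hxy
  have hrzw : r z w := (h z w).resolve_right hzw
  by_cases hxz : r x z
  · have h1 : ¬ r y z := fun hyz => hxy (rt _ _ _ hxz (rs _ _ hyz))
    have h2 : s y z := (h y z).resolve_left h1
    have h3 : r x w := rt _ _ _ hxz hrzw
    have h4 : ¬ r y w := fun hyw => hxy (rt _ _ _ h3 (rs _ _ hyw))
    have h5 : s y w := (h y w).resolve_left h4
    exact hzw (st _ _ _ (ss _ _ h2) h5)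
  · have h1 : s x z := (h x z).resolve_left hxz
    have h2 : ¬ s x w := fun hxw => hzw (st _ _ _ (ss _ _ h1) hxw)
    have h3 : r x w := (h x w).resolve_right h2
    exact hxz (rt _ _ _ h3 (rs _ _ hrzw))

/-- parallel vectors -/
def Pl {n : ℕ} (x y : Fin n → ℝ) : Prop := ∀ i j, x i * y j = x j * y i

theorem Pl.smul {n : ℕ} {x y : Fin n → ℝ} (h : Pl x y) (hx : x ≠ 0) : ∃ t : ℝ, y = t • x := by
  obtain ⟨i, hi⟩ := Function.ne_iff.1 hx
  simp only [Pi.zero_apply] at hi
  refine ⟨y i / x i, funext fun j => ?_⟩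
  have := h i j
  simp only [Pi.smul_apply, smul_eq_mul]
  field_simp
  linarith

theorem Pl.of_smul {n : ℕ} {x y : Fin n → ℝ} (t : ℝ) (h : y = t • x) : Pl x y := by
  intro i j
  rw [h]
  simp only [Pi.smul_apply, smul_eq_mul]
  ring

theorem Pl.symm {n : ℕ} {x y : Fin n → ℝ} (h : Pl x y) : Pl y x := by
  intro i j
  have := h j i
  linarith

theorem Pl.trans {n : ℕ} {x y z : Fin n → ℝ} (hy : y ≠ 0) (h : Pl x y) (h' : Pl y z) : Pl x z := by
  obtain ⟨s, hs⟩ := (h.symm).smul hy
  obtain ⟨t, ht⟩ := h'.smul hy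
  intro i j
  rw [hs, ht]
  simp only [Pi.smul_apply, smul_eq_mul]
  ring

theorem core (R K : ℕ) (hR : 0 < R) (hRK : R < K) (α : Fin R → Fin K → Fin R → ℝ)
    (p : Fin R → Fin K → Fin K → ℝ) (β : Fin R → Fin K → Fin R → ℝ)
    (q : Fin R → Fin K → Fin K → ℝ)
    (hU : ∀ a l b m, (α a l ⬝ᵥ β b m) * (p a l ⬝ᵥ q b m) = if a = b ∧ l = m then 1 else 0)
    (hP : ∀ a l l', l ≠ l' → ∃ (x : Fin R → ℝ) (y : Fin K → ℝ), ∀ b m,
      (x ⬝ᵥ β b m) * (y ⬝ᵥ q b m) =
        (if a = b ∧ l = m then 1 else 0) + (if a = b ∧ l' = m then 1 else 0)) :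
    ∃ B : Fin R → Matrix (Fin K) (Fin K) ℝ, (∀ a, IsUnit (B a)) ∧
      ∀ (x : Fin R → ℝ) (y : Fin K → ℝ), ∀ a, ∃ s : ℝ,
        B a *ᵥ (fun l => (x ⬝ᵥ β a l) * (y ⬝ᵥ q a l)) = s • y := by
  classical
  have hK : 0 < K := hR.trans hRK
  let E : Matrix (Fin R × Fin K) (Fin R × Fin K) ℝ := fun i j => α i.1 i.2 j.1 * p i.1 i.2 j.2
  let Y : Matrix (Fin R × Fin K) (Fin R × Fin K) ℝ := fun j i => β i.1 i.2 j.1 * q i.1 i.2 j.2
  have hT : ∀ (x : Fin R → ℝ) (y : Fin K → ℝ) (b : Fin R) (m : Fin K),
      ∑ j : Fin R × Fin K, (x j.1 * y j.2) * Y j (b, m) = (x ⬝ᵥ β b m) * (y ⬝ᵥ q b m) := by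
    intro x y b m
    rw [Fintype.sum_prod_type]
    simp only [dotProduct, Finset.sum_mul_sum, Y]
    exact Finset.sum_congr rfl fun u _ => Finset.sum_congr rfl fun v _ => by ring
  have hEY : E * Y = 1 := by
    ext i j
    rw [Matrix.mul_apply]
    have h1 := hT (α i.1 i.2) (p i.1 i.2) j.1 j.2
    have h2 : ∑ k : Fin R × Fin K, E i k * Y k j = ∑ k : Fin R × Fin K,
      (α i.1 i.2 k.1 * p i.1 i.2 k.2) * Y k (j.1, j.2) := rfl
    rw [h2, h1, hU, Matrix.one_apply]
    simp only [Prod.ext_iff]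
  have hYE : Y * E = 1 := mul_eq_one_comm.1 hEY
  -- (*)
  have hstar : ∀ (x : Fin R → ℝ) (y : Fin K → ℝ) (u : Fin R) (v : Fin K),
      x u * y v = ∑ b : Fin R, ∑ m : Fin K,
        ((x ⬝ᵥ β b m) * (y ⬝ᵥ q b m)) * (α b m u * p b m v) := by
    intro x y u v
    have h1 : ((fun j : Fin R × Fin K => x j.1 * y j.2) ᵥ* (Y * E)) (u, v) = x u * y v := by
      rw [hYE, Matrix.vecMul_one]
    rw [← Matrix.vecMul_vecMul] at h1
    rw [← h1]
    simp only [Matrix.vecMul, dotProduct]
    rw [Fintype.sum_prod_type]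
    refine Finset.sum_congr rfl fun b _ => Finset.sum_congr rfl fun m _ => ?_
    have h2 := hT x y b m
    simp only [dotProduct] at h2
    rw [h2]
  -- independence
  have hF : ∀ c : Fin R × Fin K → ℝ, (∀ u v, ∑ b : Fin R, ∑ m : Fin K,
      c (b, m) * (α b m u * p b m v) = 0) → c = 0 := by
    intro c hc
    have h1 : c ᵥ* E = 0 := by
      funext j
      simp only [Matrix.vecMul, dotProduct, Pi.zero_apply]
      rw [Fintype.sum_prod_type]
      exact hc j.1 j.2
    have h2 : c ᵥ* (E * Y) = 0 := by rw [← Matrix.vecMul_vecMul, h1, Matrix.zero_vecMul]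
    rwa [hEY, Matrix.vecMul_one] at h2
  have hα0 : ∀ a l, α a l ≠ 0 := by
    intro a l h
    have := hU a l a l
    rw [h] at this
    simp at this
  have hp0 : ∀ a l, p a l ≠ 0 := by
    intro a l h
    have := hU a l a l
    rw [h] at this
    simp at this
  -- (1)
  have hpar : ∀ a l l', Pl (α a l) (α a l') ∨ Pl (p a l) (p a l') := by
    intro a l l'
    rcases eq_or_ne l l' with rfl | hl
    · left; intro i j; ring
    obtain ⟨x, y, hxy⟩ := hP a l l' hl
    have h1 : ∀ u v, x u * y v = α a l u * p a l v + α a l' u * p a l' v := by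
      intro u v
      rw [hstar x y u v]
      simp only [hxy, add_mul, Finset.sum_add_distrib, ite_mul, one_mul, zero_mul]
      congr 1
      · rw [Finset.sum_eq_single a, Finset.sum_eq_single l]
        · simp
        · intro m _ hm; rw [if_neg]; exact fun h => hm h.2.symm
        · simp
        · intro b _ hb
          refine Finset.sum_eq_zero fun m _ => ?_
          rw [if_neg]; exact fun h => hb h.1.symm
        · simp
      · rw [Finset.sum_eq_single a, Finset.sum_eq_single l']
        · simp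
        · intro m _ hm; rw [if_neg]; exact fun h => hm h.2.symm
        · simp
        · intro b _ hb
          refine Finset.sum_eq_zero fun m _ => ?_
          rw [if_neg]; exact fun h => hb h.1.symm
        · simp
    have h2 : ∀ u u' v v', (α a l u * α a l' u' - α a l u' * α a l' u) *
        (p a l v * p a l' v' - p a l v' * p a l' v) = 0 := by
      intro u u' v v'
      have e1 := h1 u v
      have e2 := h1 u' v'
      have e3 := h1 u v'
      have e4 := h1 u' v
      have e5 : (x u * y v) * (x u' * y v') - (x u * y v') * (x u' * y v) = 0 := by ring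
      rw [e1, e2, e3, e4] at e5
      linear_combination e5
    by_contra hcon
    push Not at hcon
    obtain ⟨hc1, hc2⟩ := hcon
    unfold Pl at hc1 hc2
    push Not at hc1 hc2
    obtain ⟨u, u', hu⟩ := hc1
    obtain ⟨v, v', hv⟩ := hc2
    have := h2 u u' v v'
    rcases mul_eq_zero.1 this with h | h
    · exact hu (sub_eq_zero.1 h)
    · exact hv (sub_eq_zero.1 h)
  -- (2), (3)
  have huniv : ∀ a, ∀ l l', Pl (α a l) (α a l') := by
    intro a
    rcases two_equiv (fun l l' => Pl (α a l) (α a l')) (fun l l' => Pl (p a l) (p a l'))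
      (fun _ _ h => h.symm) (fun _ _ _ h h' => Pl.trans (hα0 a _) h h')
      (fun _ _ h => h.symm) (fun _ _ _ h h' => Pl.trans (hp0 a _) h h') (hpar a) with h | h
    · exact h
    · exfalso
      choose t ht using fun l => (h ⟨0, hK⟩ l).smul (hp0 a ⟨0, hK⟩)
      have hli : LinearIndependent ℝ (fun l : Fin K => t l • α a l) := by
        rw [Fintype.linearIndependent_iff]
        intro c hc
        have h3 := hF (fun i => if i.1 = a then c i.2 else 0) (fun u v => by
          rw [Finset.sum_eq_single a]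
          · simp only [if_true]
            have h4 := congrFun hc u
            simp only [Finset.sum_apply, Pi.smul_apply, smul_eq_mul, Pi.zero_apply] at h4
            have h5 : ∑ m : Fin K, c m * (α a m u * p a m v) =
                (∑ m : Fin K, c m * (t m * α a m u)) * p a ⟨0, hK⟩ v := by
              rw [Finset.sum_mul]
              refine Finset.sum_congr rfl fun m _ => ?_
              have h6 := congrFun (ht m) v
              simp only [Pi.smul_apply, smul_eq_mul] at h6
              rw [h6]; ring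
            rw [h5, h4, zero_mul]
          · intro b _ hb
            refine Finset.sum_eq_zero fun m _ => ?_
            simp only [if_neg hb, zero_mul]
          · simp)
        intro l
        have h4 := congrFun h3 (a, l)
        simpa using h4
      have h5 := hli.fintype_card_le_finrank
      rw [Fintype.card_fin, Module.finrank_fintype_fun_eq_card, Fintype.card_fin] at h5
      omega
  -- (4)
  set l0 : Fin K := ⟨0, hK⟩ with hl0
  choose t ht using fun a l => (huniv a l0 l).smul (hα0 a l0)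
  let A : Matrix (Fin R) (Fin R) ℝ := fun a u => α a l0 u
  let B : Fin R → Matrix (Fin K) (Fin K) ℝ := fun a v l => t a l * p a l v
  have hE : ∀ a l u v, α a l u * p a l v = A a u * B a v l := by
    intro a l u v
    have h6 := congrFun (ht a l) u
    simp only [Pi.smul_apply, smul_eq_mul] at h6
    simp only [A, B]
    rw [h6]; ring
  have hBu : ∀ a, IsUnit (B a) := by
    intro a
    rw [← Matrix.mulVec_injective_iff_isUnit]
    refine (injective_iff_map_eq_zero (B a).mulVecLin).2 ?_
    intro c hc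
    have hc' : ∀ v, ∑ m : Fin K, B a v m * c m = 0 := fun v => congrFun hc v
    have h3 := hF (fun i => if i.1 = a then c i.2 else 0) (fun u v => by
      rw [Finset.sum_eq_single a]
      · simp only [if_true, hE]
        have h5 : ∑ m : Fin K, c m * (A a u * B a v m) = A a u * ∑ m : Fin K, B a v m * c m := by
          rw [Finset.mul_sum]
          exact Finset.sum_congr rfl fun m _ => by ring
        rw [h5, hc' v, mul_zero]
      · intro b _ hb
        refine Finset.sum_eq_zero fun m _ => ?_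
        simp only [if_neg hb, zero_mul]
      · simp)
    funext l
    have h4 := congrFun h3 (a, l)
    simpa using h4
  have hAu : IsUnit A := by
    rw [← Matrix.mulVec_injective_iff_isUnit]
    refine (injective_iff_map_eq_zero A.mulVecLin).2 ?_
    intro w hw
    have hw' : ∀ a, ∑ u : Fin R, A a u * w u = 0 := fun a => congrFun hw a
    have h1 : E *ᵥ (fun j : Fin R × Fin K => w j.1 * (if j.2 = l0 then 1 else 0)) = 0 := by
      funext i
      simp only [Matrix.mulVec, dotProduct, Pi.zero_apply]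
      rw [Fintype.sum_prod_type]
      have h2 : ∀ u : Fin R, ∑ v : Fin K, E i (u, v) * (w u * (if v = l0 then 1 else 0)) =
          B i.1 l0 i.2 * (A i.1 u * w u) := by
        intro u
        rw [Finset.sum_eq_single l0]
        · simp only [E, if_true, hE]; ring
        · intro v _ hv; simp [hv]
        · simp
      simp only [h2]
      rw [← Finset.mul_sum, hw', mul_zero]
    have h2 : (Y * E) *ᵥ (fun j : Fin R × Fin K => w j.1 * (if j.2 = l0 then 1 else 0)) = 0 := by
      rw [← Matrix.mulVec_mulVec, h1, Matrix.mulVec_zero]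
    rw [hYE, Matrix.one_mulVec] at h2
    funext u
    have h3 := congrFun h2 (u, l0)
    simpa using h3
  have hAinv : A * A⁻¹ = 1 := Matrix.mul_nonsing_inv A ((Matrix.isUnit_iff_isUnit_det A).1 hAu)
  refine ⟨B, hBu, fun x y a => ⟨∑ u : Fin R, x u * A⁻¹ u a, ?_⟩⟩
  funext v
  have h1 : ∀ u, x u * y v = ∑ b : Fin R, A b u * (B b *ᵥ fun l => (x ⬝ᵥ β b l) * (y ⬝ᵥ q b l)) v := by
    intro u
    rw [hstar x y u v]
    refine Finset.sum_congr rfl fun b _ => ?_
    simp only [Matrix.mulVec]
    conv_rhs => rw [dotProduct]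
    rw [Finset.mul_sum]
    refine Finset.sum_congr rfl fun m _ => ?_
    rw [hE]; ring
  simp only [Pi.smul_apply, smul_eq_mul]
  rw [Finset.sum_mul]
  have h2 : ∀ u, x u * A⁻¹ u a * y v =
      ∑ b : Fin R, (A b u * A⁻¹ u a) * (B b *ᵥ fun l => (x ⬝ᵥ β b l) * (y ⬝ᵥ q b l)) v := by
    intro u
    have : x u * A⁻¹ u a * y v = (x u * y v) * A⁻¹ u a := by ring
    rw [this, h1 u, Finset.sum_mul]
    exact Finset.sum_congr rfl fun b _ => by ring
  simp only [h2]
  rw [Finset.sum_comm]
  simp only [← Finset.sum_mul]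
  have h3 : ∀ b, ∑ u : Fin R, A b u * A⁻¹ u a = if b = a then 1 else 0 := by
    intro b
    have := congrFun (congrFun hAinv b) a
    rw [Matrix.mul_apply, Matrix.one_apply] at this
    exact this
  simp only [h3, ite_mul, one_mul, zero_mul, Finset.sum_ite_eq', Finset.mem_univ, if_true]

theorem sb : S_B := by
  intro R K rows hR hRK hU hP ⟨α, p, β, q, h⟩
  have hu : ∀ (a : Fin R) (l : Fin K), ([((a : ℕ), (l : ℕ), (1 : ℚ))] : Row) ∈ rows := by
    intro a l
    apply hU
    simp only [rowsU, List.mem_flatMap, List.mem_map, List.mem_range]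
    exact ⟨a, a.2, l, l.2, rfl⟩
  have hpr : ∀ (a : Fin R) (l l' : Fin K),
      ([((a : ℕ), (l : ℕ), (1 : ℚ)), ((a : ℕ), (l' : ℕ), (1 : ℚ))] : Row) ∈ rows := by
    intro a l l'
    apply hP
    simp only [rowsP, List.mem_flatMap, List.mem_map, List.mem_range]
    exact ⟨a, a.2, l, l.2, l', l'.2, rfl⟩
  obtain ⟨B, hB1, hB2⟩ := core R K hR hRK
    (fun a l => α [((a : ℕ), (l : ℕ), (1 : ℚ))]) (fun a l => p [((a : ℕ), (l : ℕ), (1 : ℚ))]) β q
    (fun a l b m => by
      rw [← h _ (hu a l) b m]
      simp only [bv, cf, Fin.ext_iff]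
      split_ifs <;> simp)
    (fun a l l' hl => ⟨α [((a : ℕ), (l : ℕ), (1 : ℚ)), ((a : ℕ), (l' : ℕ), (1 : ℚ))],
      p [((a : ℕ), (l : ℕ), (1 : ℚ)), ((a : ℕ), (l' : ℕ), (1 : ℚ))], fun b m => by
      rw [← h _ (hpr a l l') b m]
      have hl' : (l : ℕ) ≠ l' := fun e => hl (Fin.ext e)
      simp only [bv, cf, Fin.ext_iff]
      split_ifs with h1 h2 h3 <;> first
        | (exfalso; exact hl' (h1.2.trans h2.2.symm))
        | simp⟩)
  refine ⟨fun a => if h : a < R then B ⟨a, h⟩ else 1, fun a ha => ?_, fun x hx => ⟨p x, fun a ha => ?_⟩⟩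
  · simp only [dif_pos ha]
    exact hB1 _
  · simp only [dif_pos ha]
    obtain ⟨s, hs⟩ := hB2 (α x) (p x) ⟨a, ha⟩
    refine ⟨s, ?_⟩
    rw [← hs]
    congr 1
    funext l
    exact h x hx ⟨a, ha⟩ l

end Pool.Agent.Q166.HDP
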